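import Pool.Agent.MP_855f4c_ag.Et.Def

namespace Pool.Agent.MP_855f4c_ag.Et

open CategoryTheory Limits AlgebraicGeometry

/-- Pull-back along an endomorphism `σ` of `X` over `R`, on the `l`-adic cohomology of the fibre
of `f` at `R → Ω`. -/
noncomputable def act {R : Type} (Ω : Type) [CommRing R] [Field Ω] [Algebra R Ω] {X : Scheme.{0}}
    (f : X ⟶ Spec (.of R)) (l i : ℕ) (σ : X ⟶ X) (h : σ ≫ f = f) :
    Module.End ℚ
      ((Hl l i).obj (.op (pullback (Spec.map (CommRingCat.ofHom (algebraMap R Ω))) f))) :=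
  ((Hl l i).map (pullback.map _ f _ f (𝟙 _) σ (𝟙 _) (by simp) (by simp [h])).op).hom

end Pool.Agent.MP_855f4c_ag.Et
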